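import Pool.Agent.Lib.MP_b5021c_nt.UF.H02.Ccn2
import Pool.Agent.Lib.MP_b5021c_nt.UF.H83.Ns
import Pool.Agent.Lib.MP_b5021c_nt.IfaceUF

/-!
# Board b5, stage 3, K ODD, `l = 3`, ALPHA: the content is a unit (END)

`E` in `DD`, its closing at the load `eta` of the ray `S` is `c G`, `G` z-free without small factor.
If at every zero `z0` of `c` the part of `E` without the port `i0` is divisible by `1 - e w^T`, then
`c` is a unit.
-/

set_option linter.unusedSectionVars false

namespace Pool.Agent.B5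

open scoped LaurentPolynomial
open Polynomial

/-- (O43_END) The content is a unit. -/
def EndS : Prop := ∀ (P L : Type) [Fintype P] [DecidableEq P] [AddCommGroup L]
  [Module.Free ℤ L] [Module.Finite ℤ L] (phi : L →+ (P → ℤ)) (E : AO ℤ L) (S : L) (i0 : P)
  (h : co phi i0 S = 1) (eta : (RO ℤ)ˣ) (c : RO ℤ) (G : AO ℤ (Ker (co phi i0))) (p0 p1 : ℤ[X])
  (u0 : (RO ℤ)ˣ) (T : Ker (co phi i0)) (mu : Ker (co phi i0) →+ ℤ),
    DD phi E → 2 ≤ Module.finrank ℤ L → Ray E S → cl (co phi i0) S h eta E = cst c * G →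
    ClassV 1 c → ZFree G →
    (∀ (b : Ker (co phi i0)) (e : (RO ℤ)ˣ), b ≠ 0 →
      ¬ (1 - AddMonoidAlgebra.single b (e : RO ℤ)) ∣ G) →
    (u0 : RO ℤ) * E.coeff 0 = toLaurent p0 →
    (u0 : RO ℤ) * ((eta : RO ℤ) * E.coeff S) = -toLaurent p1 →
    (∀ z : ℂ, ‖z‖ < 1 → aeval z p0 ≠ 0) → p0 ≠ p1 → mu T = 1 →
    (∀ a ∈ supp G, mu a = 0 ∨ mu a = 1) →
    (∀ z0 : Circle, evR z0 c = 0 → ∃ (e : ℂ) (F : CA (Ker (co phi i0))), ‖e‖ = 1 ∧
      spec z0 (res (Ker (co phi i0)) E) = (1 - AddMonoidAlgebra.single T e) * F) → IsUnit c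

namespace KO23

open Pool.Agent.B5.UF.H74

theorem gcz {L : Type} [AddCommGroup L] {q : ℕ} {l : L →+ ℤ} {n : ℤ} {G : AO ℤ L}
    (hG : ∀ (a : L) (k : ℤ), (G.coeff a).coeff k ≠ 0 → (q : ℤ) * k = l a + (q : ℤ) * n)
    (hq : 0 < q) (a : L) : ∃ k g : ℤ, G.coeff a = Dcm.mz k g ∧
      (g ≠ 0 → (q : ℤ) * k = l a + (q : ℤ) * n) := by
  obtain ⟨k, g, hkg⟩ := gcdz hq hG a
  refine ⟨k, g, hkg, fun hg => ?_⟩
  apply hG a k
  rw [hkg]
  unfold Dcm.mz
  rw [AddMonoidAlgebra.coeff_single, Finsupp.single_eq_same]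
  exact hg

/-- Coefficients of `(1 - e w^T) F`. -/
theorem co_bin {K L : Type} [CommRing K] [AddCommGroup L] (T : L) (e : K)
    (F : AddMonoidAlgebra K L) (a : L) :
    ((1 - AddMonoidAlgebra.single T e) * F).coeff a = F.coeff a - e * F.coeff (a - T) := by
  rw [sub_mul, one_mul, AddMonoidAlgebra.coeff_sub, Finsupp.sub_apply,
    AddMonoidAlgebra.coeff_single_mul_eq_mul_coeff (a - T)]
  intro m' _
  constructor
  · intro h3
    rw [← h3]
    abel
  · intro h3
    rw [h3]
    abel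

/-- If `(1 - e w^T) F` lives in the degrees `0, 1` (`mu T = 1`), then `F` lives in degree `0`. -/
theorem bin_deg {L : Type} [AddCommGroup L] (mu : L →+ ℤ) {T : L} (hT : mu T = 1) {e : ℂ}
    (he : e ≠ 0) {F H : CA L} (h : H = (1 - AddMonoidAlgebra.single T e) * F)
    (hH : ∀ a, H.coeff a ≠ 0 → mu a = 0 ∨ mu a = 1) (a : L) (ha : F.coeff a ≠ 0) : mu a = 0 := by
  classical
  -- go down
  have hlow : 0 ≤ mu a := by
    by_contra hcon
    push Not at hcon
    have hstep : ∀ n : ℕ, F.coeff (a - n • T) ≠ 0 := by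
      intro n
      induction n with
      | zero => simpa using ha
      | succ n ih =>
        intro h0
        have h1 : H.coeff (a - n • T) = 0 := by
          by_contra h2
          have h3 := hH _ h2
          rw [map_sub, map_nsmul, hT] at h3
          simp only [nsmul_eq_mul, mul_one] at h3
          rcases h3 with h3 | h3 <;> lia
        rw [h, co_bin] at h1
        have h2 : a - n • T - T = a - (n + 1) • T := by
          rw [add_smul, one_smul]
          abel
        rw [h2, h0, mul_zero, sub_zero] at h1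
        exact ih h1
    have hinj : Function.Injective fun n : ℕ => a - n • T := by
      intro m n hmn
      have h1 := congrArg mu hmn
      simp only [map_sub, map_nsmul, hT, nsmul_eq_mul, mul_one] at h1
      lia
    exact Set.infinite_range_of_injective hinj
      ((Finset.finite_toSet F.coeff.support).subset (by
        rintro _ ⟨n, rfl⟩
        exact Finsupp.mem_support_iff.2 (hstep n)))
  have hhigh : mu a ≤ 0 := by
    by_contra hcon
    push Not at hcon
    have hstep : ∀ n : ℕ, F.coeff (a + n • T) ≠ 0 := by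
      intro n
      induction n with
      | zero => simpa using ha
      | succ n ih =>
        intro h0
        have h1 : H.coeff (a + (n + 1) • T) = 0 := by
          by_contra h2
          have h3 := hH _ h2
          rw [map_add, map_nsmul, hT] at h3
          simp only [nsmul_eq_mul, mul_one] at h3
          rcases h3 with h3 | h3 <;> push_cast at h3 <;> lia
        rw [h, co_bin, h0, zero_sub] at h1
        have h2 : a + (n + 1) • T - T = a + n • T := by
          rw [add_smul, one_smul]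
          abel
        rw [h2] at h1
        rcases mul_eq_zero.1 (neg_eq_zero.1 h1) with h3 | h3
        · exact he h3
        · exact ih h3
    have hinj : Function.Injective fun n : ℕ => a + n • T := by
      intro m n hmn
      have h1 := congrArg mu hmn
      simp only [map_add, map_nsmul, hT, nsmul_eq_mul, mul_one] at h1
      lia
    exact Set.infinite_range_of_injective hinj
      ((Finset.finite_toSet F.coeff.support).subset (by
        rintro _ ⟨n, rfl⟩
        exact Finsupp.mem_support_iff.2 (hstep n)))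
  lia

/-- A z-free element which is divisible by `1 - e w^T` at one point of the circle has the small
factor `1 - ± z^k w^T`. -/
theorem zf_dvd {L : Type} [AddCommGroup L] (mu : L →+ ℤ) {T : L} (hT : mu T = 1) {e : ℂ}
    (he : ‖e‖ = 1) {G : AO ℤ L} (hG0 : G ≠ 0) (hZ : ZFree G) (hmu : ∀ a ∈ supp G, mu a = 0 ∨ mu a = 1)
    {z0 : Circle} {F : CA L} (h : spec z0 G = (1 - AddMonoidAlgebra.single T e) * F) :
    ∃ e' : (RO ℤ)ˣ, (1 - AddMonoidAlgebra.single T (e' : RO ℤ)) ∣ G := by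
  classical
  obtain ⟨q, l, n, hq, hZ⟩ := hZ
  have hz0 : (z0 : ℂ) ≠ 0 := Circle.coe_ne_zero z0
  have he0 : e ≠ 0 := by
    rintro rfl
    rw [norm_zero] at he
    exact zero_ne_one he
  have hF := bin_deg mu hT he0 h (by
    intro a ha
    apply hmu a
    intro h0
    rw [spec_coeff, h0, map_zero] at ha
    exact ha rfl)
  -- the two coefficients
  have hrel : ∀ a, mu a = 0 → evR z0 (G.coeff (a + T)) = -e * evR z0 (G.coeff a) := by
    intro a ha
    have h1 : evR z0 (G.coeff a) = F.coeff a := by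
      rw [← spec_coeff, h, co_bin]
      have : F.coeff (a - T) = 0 := by
        by_contra h2
        have h3 := hF _ h2
        rw [map_sub, ha, hT] at h3
        lia
      rw [this, mul_zero, sub_zero]
    have h2 : evR z0 (G.coeff (a + T)) = -e * F.coeff a := by
      rw [← spec_coeff, h, co_bin]
      have : F.coeff (a + T) = 0 := by
        by_contra h2
        have h3 := hF _ h2
        rw [map_add, ha, hT] at h3
        lia
      rw [this, zero_sub, add_sub_cancel_right, neg_mul]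
    rw [h2, h1]
  choose k g hkg hkk using gcz hZ hq
  have hq0 : (q : ℤ) ≠ 0 := by exact_mod_cast hq.ne'
  have hgi : ∀ a, mu a = 0 → (g (a + T) : ℂ) * (z0 : ℂ) ^ k (a + T) =
      -e * (g a * (z0 : ℂ) ^ k a) := by
    intro a ha
    have h1 := hrel a ha
    rw [hkg, hkg a, evR_mz, evR_mz] at h1
    exact h1
  -- a coefficient of degree zero
  obtain ⟨a0, ha0, hg0⟩ : ∃ a0, mu a0 = 0 ∧ g a0 ≠ 0 := by
    by_contra hcon
    push Not at hcon
    apply hG0
    apply AddMonoidAlgebra.ext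
    ext a j
    have h0 : G.coeff a = 0 := by
      by_contra h1
      have hg : g a ≠ 0 := by
        intro h2
        apply h1
        rw [hkg a, h2]
        unfold Dcm.mz
        rw [AddMonoidAlgebra.single_zero]
      rcases hmu a h1 with h2 | h2
      · exact hg (hcon a h2)
      · have h3 : mu (a - T) = 0 := by rw [map_sub, h2, hT]; rfl
        have h4 := hgi (a - T) h3
        rw [sub_add_cancel, hcon _ h3, Int.cast_zero, zero_mul, mul_zero] at h4
        rcases mul_eq_zero.1 h4 with h5 | h5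
        · exact hg (by exact_mod_cast h5)
        · exact zpow_ne_zero _ hz0 h5
    rw [h0]
    rfl
  have hnz : ∀ m : ℤ, ‖(z0 : ℂ) ^ m‖ = 1 := fun m => by
    rw [norm_zpow, Circle.norm_coe, one_zpow]
  have habs : ∀ a, mu a = 0 → |g (a + T)| = |g a| := by
    intro a ha
    have h1 := congrArg norm (hgi a ha)
    rw [norm_mul, norm_mul, norm_mul, norm_neg, he, hnz, hnz, mul_one, mul_one, one_mul,
      Complex.norm_intCast, Complex.norm_intCast] at h1
    exact_mod_cast h1
  set κ : ℤ := k (a0 + T) - k a0 with hκ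
  have hg0T : g (a0 + T) ≠ 0 := by
    intro h1
    have h2 := habs a0 ha0
    rw [h1, abs_zero] at h2
    exact hg0 (abs_eq_zero.1 h2.symm)
  have hlT : (q : ℤ) * κ = l T := by
    have h1 := hkk a0 hg0
    have h2 := hkk (a0 + T) hg0T
    rw [map_add] at h2
    rw [hκ, mul_sub, h1, h2]
    ring
  obtain ⟨s, hs, hsg⟩ : ∃ s : ℤ, (s = 1 ∨ s = -1) ∧ g (a0 + T) = s * g a0 := by
    rcases abs_eq_abs.1 (habs a0 ha0) with h1 | h1
    · exact ⟨1, Or.inl rfl, by rw [h1, one_mul]⟩
    · exact ⟨-1, Or.inr rfl, by rw [h1, neg_one_mul]⟩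
  have hkT : ∀ a, g a ≠ 0 → g (a + T) ≠ 0 → k (a + T) = k a + κ := by
    intro a h1 h2
    have h3 := hkk a h1
    have h4 := hkk (a + T) h2
    rw [map_add] at h4
    have h5 : (q : ℤ) * k (a + T) = (q : ℤ) * (k a + κ) := by
      rw [mul_add, hlT, h3, h4]
      ring
    exact mul_left_cancel₀ hq0 h5
  -- `-e = s z0^κ`
  have hes : -e = s * (z0 : ℂ) ^ κ := by
    have h1 := hgi a0 ha0
    rw [hkT a0 hg0 hg0T, hsg, zpow_add₀ hz0] at h1
    have h2 : ((g a0 : ℂ) * (z0 : ℂ) ^ k a0) ≠ 0 :=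
      mul_ne_zero (by exact_mod_cast hg0) (zpow_ne_zero _ hz0)
    apply mul_right_cancel₀ h2
    rw [← h1]
    push_cast
    ring
  have hall : ∀ a, mu a = 0 → G.coeff (a + T) = Dcm.mz κ s * G.coeff a := by
    intro a ha
    by_cases h1 : g a = 0
    · have h2 : g (a + T) = 0 := by
        have h3 := habs a ha
        rw [h1, abs_zero] at h3
        exact abs_eq_zero.1 h3
      rw [hkg, hkg a, h1, h2]
      unfold Dcm.mz
      rw [AddMonoidAlgebra.single_zero, AddMonoidAlgebra.single_zero, mul_zero]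
    · have h2 : g (a + T) ≠ 0 := by
        intro h3
        have h4 := habs a ha
        rw [h3, abs_zero] at h4
        exact h1 (abs_eq_zero.1 h4.symm)
      have h3 := hgi a ha
      have h4 := hkT a h1 h2
      rw [h4, hes, zpow_add₀ hz0] at h3
      have h5 : g (a + T) = s * g a := by
        have h6 : ((z0 : ℂ) ^ k a * (z0 : ℂ) ^ κ) ≠ 0 :=
          mul_ne_zero (zpow_ne_zero _ hz0) (zpow_ne_zero _ hz0)
        have h7 : (g (a + T) : ℂ) = s * g a := by
          apply mul_right_cancel₀ h6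
          rw [h3]
          ring
        exact_mod_cast h7
      rw [hkg, hkg a, Dcm.mz_mul, h4, h5, add_comm]
  -- the unit
  have hss : s * s = 1 := by rcases hs with h | h <;> rw [h] <;> norm_num
  have hu : Dcm.mz κ (-s) * Dcm.mz (-κ) (-s) = (1 : RO ℤ) := by
    rw [Dcm.mz_mul, add_neg_cancel, neg_mul_neg, hss]
    rfl
  refine ⟨⟨Dcm.mz κ (-s), Dcm.mz (-κ) (-s), hu, by rw [mul_comm]; exact hu⟩, gpart mu 0 G, ?_⟩
  have hgp : ∀ a, (gpart mu 0 G).coeff a = if mu a = 0 then G.coeff a else 0 := by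
    intro a
    change (G.coeff.filter fun a => mu a = 0) a = _
    rw [Finsupp.filter_apply]
  apply AddMonoidAlgebra.ext
  ext a j
  rw [co_bin, hgp, hgp]
  by_cases h1 : mu a = 0
  · have h2 : ¬ mu (a - T) = 0 := by rw [map_sub, h1, hT]; lia
    rw [if_pos h1, if_neg h2, mul_zero, sub_zero]
  · by_cases h3 : mu a = 1
    · have h2 : mu (a - T) = 0 := by rw [map_sub, h3, hT]; rfl
      rw [if_neg h1, if_pos h2, zero_sub]
      have h4 := hall (a - T) h2
      rw [sub_add_cancel] at h4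
      rw [h4]
      change (Dcm.mz κ s * G.coeff (a - T)).coeff j = (-(Dcm.mz κ (-s) * G.coeff (a - T))).coeff j
      have h5 : -(Dcm.mz κ (-s) * G.coeff (a - T)) = Dcm.mz κ s * G.coeff (a - T) := by
        have h6 : (Dcm.mz κ s : RO ℤ) = -Dcm.mz κ (-s) := by
          unfold Dcm.mz
          rw [AddMonoidAlgebra.single_neg, neg_neg]
        rw [h6]
        ring
      rw [h5]
    · have h2 : G.coeff a = 0 := by
        by_contra h4
        rcases hmu a h4 with h5 | h5
        · exact h1 h5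
        · exact h3 h5
      have h4 : ¬ mu (a - T) = 0 := by
        rw [map_sub, hT]
        intro h5
        exact h3 (by lia)
      rw [if_neg h1, if_neg h4, mul_zero, sub_zero, h2]

/-- Row O43_END. -/
theorem end_ (hcr : CrssS) (hsz : SzcS) (hE2 : E2S) (hG0 : G0S) (hMV : MVS) (hM1 : M1S) :
    EndS := by
  classical
  intro P L _ _ _ _ _ phi E S i0 h eta c G p0 p1 u0 T mu hD h2 hRay hcl hc hZ hns h0 h1 hp0z hne
    hT hmu hz
  obtain ⟨hz0, -, -, -, -, hr⟩ := hE2 ℤ P L phi E hD h2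
  obtain ⟨hle, -⟩ := hr S hRay
  have hV0 : (u0 : RO ℤ) * (E.coeff 0 + (eta : RO ℤ) * E.coeff S) = toLaurent (p0 - p1) := by
    rw [mul_add, h0, h1, map_sub]
    ring
  have hne0 : E.coeff 0 + (eta : RO ℤ) * E.coeff S ≠ 0 := by
    intro h3
    rw [h3, mul_zero] at hV0
    exact hne (sub_eq_zero.1 (Dcm.toLaurent_inj' (by rw [← hV0, map_zero])))
  have hCC : CC phi E S i0 eta := ⟨hD, h2, hRay, h, hne0⟩
  obtain ⟨-, -, hcl0, -⟩ := hG0 ℤ P L phi E S i0 eta h hCC
  have hcl0' : c * G.coeff 0 = E.coeff 0 + (eta : RO ℤ) * E.coeff S := by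
    rw [← hcl0, hcl, H14.coeff_cst_mul]
  have hG00 : G.coeff 0 ≠ 0 := by
    intro h3
    rw [h3, mul_zero] at hcl0'
    exact hne0 hcl0'.symm
  have hGne : G ≠ 0 := by
    rintro rfl
    exact hG00 rfl
  obtain ⟨hc0, hMc⟩ := (hMV ℤ).1 1 c hc
  refine hM1 ℤ c hc0 hMc fun z0 hcz => ?_
  -- the constant coefficient of `G`
  obtain ⟨q, l, n, hq, hZ'⟩ := id hZ
  obtain ⟨k0, g0, hg0, -⟩ := gcz hZ' hq 0
  have hg0' : g0 ≠ 0 := by
    rintro rfl
    apply hG00
    rw [hg0]
    unfold Dcm.mz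
    rw [AddMonoidAlgebra.single_zero]
  have hzc : (z0 : ℂ) ≠ 0 := Circle.coe_ne_zero z0
  have hG0z : evR z0 (G.coeff 0) ≠ 0 := by
    rw [hg0, evR_mz]
    exact mul_ne_zero (by exact_mod_cast hg0') (zpow_ne_zero _ hzc)
  -- the content in normal form
  obtain ⟨-, n1, q1, hcq, -, -⟩ := hc
  have hcz' : aeval (z0 : ℂ) q1 = 0 := by
    rw [hcq, H02.evR_Tq] at hcz
    exact (mul_eq_zero.1 hcz).resolve_left (zpow_ne_zero _ hzc)
  obtain ⟨ku, su, hsu⟩ := Dcm.unit_mz u0
  have hsu0 : (su : ℤ) ≠ 0 := su.ne_zero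
  have hid : (Dcm.mz (ku + n1 + k0) ((su : ℤ) * g0) * toLaurent q1 : RO ℤ) =
      toLaurent (p0 - p1) := by
    rw [← hV0, ← hcl0', hcq, hg0, hsu]
    have h3 : (Dcm.mz (ku + n1 + k0) ((su : ℤ) * g0) : RO ℤ) =
        Dcm.mz ku (su : ℤ) * LaurentPolynomial.T n1 * Dcm.mz k0 g0 := by
      have h4 : (LaurentPolynomial.T n1 : RO ℤ) = Dcm.mz n1 1 := by
        rw [mz_eq, C_1, map_one, one_mul]
      rw [h4, Dcm.mz_mul, Dcm.mz_mul, mul_one]
    rw [h3]
    ring
  have hsimple : aeval (z0 : ℂ) (derivative q1) ≠ 0 := by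
    intro h3
    have hV0z : aeval (z0 : ℂ) (p0 - p1) = 0 := by
      rw [← evR_lau, ← hid, map_mul, evR_lau, hcz', mul_zero]
    refine hsz p0 p1 z0 hne hp0z ?_ (Circle.norm_coe z0) ?_ hV0z ?_
    · intro z
      have hu : ∀ v : (RO ℤ)ˣ, ‖evR z (v : RO ℤ)‖ = 1 := fun v => H36.norm_evR_unit z _ v.isUnit
      have h4 : ‖aeval (z : ℂ) p0‖ = ‖evR z (E.coeff 0)‖ := by
        rw [← evR_lau, ← h0, map_mul, norm_mul, hu, one_mul]
      have h5 : ‖aeval (z : ℂ) p1‖ = ‖evR z (E.coeff S)‖ := by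
        rw [← norm_neg, ← evR_lau, ← map_neg, ← h1, map_mul, map_mul, norm_mul, norm_mul, hu, hu,
          one_mul, one_mul]
      rw [h4, h5]
      exact hle z
    · intro h4
      rw [← evR_lau, ← h0, map_mul] at h4
      rcases mul_eq_zero.1 h4 with h5 | h5
      · have h6 := H36.norm_evR_unit z0 _ u0.isUnit
        rw [h5, norm_zero] at h6
        exact zero_ne_one h6
      · exact hz0 z0 h5
    · -- the derivative of `X^m (p0 - p1) = C g q1 X^m'`
      obtain ⟨m, hm⟩ : ∃ m : ℕ, 0 ≤ ku + n1 + k0 + m := ⟨(ku + n1 + k0).natAbs, by lia⟩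
      obtain ⟨m', hm'⟩ := Int.eq_ofNat_of_zero_le hm
      have hpoly : X ^ m * (p0 - p1) = C ((su : ℤ) * g0) * (X ^ m' * q1) := by
        apply Dcm.toLaurent_inj'
        have hmz : (toLaurent (X ^ m : ℤ[X]) : RO ℤ) * Dcm.mz (ku + n1 + k0) ((su : ℤ) * g0) =
            toLaurent (C ((su : ℤ) * g0)) * toLaurent (X ^ m' : ℤ[X]) := by
          rw [mz_eq, toLaurent_X_pow, toLaurent_X_pow, ← hm', mul_left_comm,
            ← LaurentPolynomial.T_add, add_comm ((m : ℕ) : ℤ)]
        rw [map_mul, ← hid, ← mul_assoc, hmz]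
        simp only [map_mul]
        ring
      have hd := congrArg (fun f : ℤ[X] => aeval (z0 : ℂ) (derivative f)) hpoly
      simp only [derivative_mul, map_add, map_mul, derivative_C, zero_mul, zero_add,
        hV0z, mul_zero, hcz', h3, add_zero] at hd
      have h4 : aeval (z0 : ℂ) (X ^ m : ℤ[X]) ≠ 0 := by
        rw [map_pow, aeval_X]
        exact pow_ne_zero _ hzc
      rcases mul_eq_zero.1 hd with h5 | h5
      · exact absurd h5 h4
      · exact h5
  obtain ⟨ka, hka⟩ := hcr P L phi E S i0 h eta c G z0 q1 n1 hCC hcl hcq hcz' hsimple hG0z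
  have hka0 : ka ≠ 0 := by
    rintro rfl
    have h3 := hka 0
    rw [zero_mul] at h3
    exact hz0 z0 h3
  obtain ⟨e, F, he, hF⟩ := hz z0 hcz
  have hspec : spec z0 G = (1 - AddMonoidAlgebra.single T e) *
      (AddMonoidAlgebra.single 0 ka⁻¹ * F) := by
    have h3 : spec z0 G = AddMonoidAlgebra.single 0 ka⁻¹ * spec z0 (res (Ker (co phi i0)) E) := by
      apply AddMonoidAlgebra.ext
      ext a
      rw [AddMonoidAlgebra.coeff_single_zero_mul, spec_coeff, spec_coeff, res_coeff, hka a,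
        ← mul_assoc, inv_mul_cancel₀ hka0, one_mul]
    rw [h3, hF]
    ring
  obtain ⟨e', he'⟩ := zf_dvd mu hT he hGne hZ hmu hspec
  refine hns T e' ?_ he'
  rintro rfl
  rw [map_zero] at hT
  exact zero_ne_one hT

/-- The last hypothesis of `EndS` from an identity. -/
theorem spec_id {L : Type} [AddCommGroup L] {T : L} {e : (RO ℤ)ˣ} {c : RO ℤ} {R F H : AO ℤ L}
    (h : R = (1 - AddMonoidAlgebra.single T (e : RO ℤ)) * F + cst c * H) (z0 : Circle)
    (hz : evR z0 c = 0) : ∃ (e' : ℂ) (F' : CA L), ‖e'‖ = 1 ∧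
      spec z0 R = (1 - AddMonoidAlgebra.single T e') * F' := by
  refine ⟨evR z0 (e : RO ℤ), spec z0 F, H36.norm_evR_unit z0 _ e.isUnit, ?_⟩
  have h1 : spec z0 (cst c : AO ℤ L) = 0 := by
    change spec z0 (AddMonoidAlgebra.single 0 c : AO ℤ L) = 0
    rw [H83.spec_single, hz, AddMonoidAlgebra.single_zero]
  rw [h, map_add, map_mul, map_mul, h1, zero_mul, add_zero, map_sub, map_one, H83.spec_single]

/-- A `w`-dependent element does not divide a non-zero constant. -/
theorem not_dvd_cst (hMin : MinS) {L : Type} [AddCommGroup L] [Module.Free ℤ L]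
    [Module.Finite ℤ L] {G : AO ℤ L} (hG : Wdep G) {c : RO ℤ} (hc : c ≠ 0) :
    ¬ G ∣ (cst c : AO ℤ L) := by
  classical
  rintro ⟨K, hK⟩
  have hc' : (cst c : AO ℤ L) ≠ 0 := by
    intro h0
    apply hc
    have h1 : (cst c : AO ℤ L).coeff 0 = c := by
      change (AddMonoidAlgebra.single (0 : L) c).coeff 0 = c
      rw [AddMonoidAlgebra.coeff_single, Finsupp.single_eq_same]
    rw [← h1, h0]
    rfl
  have hK0 : K ≠ 0 := by
    rintro rfl
    rw [mul_zero] at hK
    exact hc' hK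
  obtain ⟨b0, hb0⟩ : ∃ b0, K.coeff b0 ≠ 0 := by
    by_contra hcon
    push Not at hcon
    apply hK0
    apply AddMonoidAlgebra.ext
    ext a j
    rw [hcon a]
    rfl
  have hGne : G ≠ 0 := by
    rintro rfl
    rw [zero_mul] at hK
    exact hc' hK
  have hco : ∀ (a : L) (F : AO ℤ L) (b : L),
      (AddMonoidAlgebra.single a (1 : RO ℤ) * F).coeff b = F.coeff (b - a) := by
    intro a F b
    rw [Uf.single_mul_co, one_mul]
  have hprod : (AddMonoidAlgebra.single b0 (1 : RO ℤ) * G) *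
      (AddMonoidAlgebra.single (-b0) (1 : RO ℤ) * K) = cst c := by
    rw [hK]
    have h1 : (AddMonoidAlgebra.single b0 (1 : RO ℤ) : AO ℤ L) *
        AddMonoidAlgebra.single (-b0) (1 : RO ℤ) = 1 := by
      rw [AddMonoidAlgebra.single_mul_single, add_neg_cancel, one_mul,
        ← AddMonoidAlgebra.one_def]
    linear_combination (G * K) * h1
  have hzero : ∀ a ∈ supp (AddMonoidAlgebra.single b0 (1 : RO ℤ) * G), a = 0 := by
    intro a ha
    have h1 : ∀ k : L →+ ℤ, 0 ≤ k a := by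
      intro k
      refine hMin ℤ L _ (AddMonoidAlgebra.single (-b0) (1 : RO ℤ) * K) ?_ ?_ k 0 ?_ a ha
      · intro h0
        rw [h0, zero_mul] at hprod
        exact hc' hprod.symm
      · rw [hco, zero_sub, neg_neg]
        exact hb0
      · intro b hb
        rw [hprod] at hb
        have h2 : b = 0 := by
          by_contra h3
          apply hb
          change (AddMonoidAlgebra.single (0 : L) c).coeff b = 0
          rw [AddMonoidAlgebra.coeff_single, Finsupp.single_apply, if_neg (Ne.symm h3)]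
        rw [h2, map_zero]
    have h2 : ∀ k : L →+ ℤ, k a = 0 := by
      intro k
      have h3 := h1 k
      have h4 := h1 (-k)
      rw [AddMonoidHom.neg_apply] at h4
      lia
    apply (Module.Free.chooseBasis ℤ L).ext_elem
    intro i
    rw [map_zero]
    exact h2 ((Module.Free.chooseBasis ℤ L).coord i).toAddMonoidHom
  obtain ⟨a, ha, b, hb, hab⟩ := hG
  apply hab
  have h1 : ∀ x ∈ supp G, x = -b0 := by
    intro x hx
    have h2 : x + b0 = 0 := by
      apply hzero
      change (AddMonoidAlgebra.single b0 (1 : RO ℤ) * G).coeff (x + b0) ≠ 0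
      rw [hco, add_sub_cancel_right]
      exact hx
    exact eq_neg_of_add_eq_zero_left h2
  rw [h1 a ha, h1 b hb]

section

variable {P : Type} [Fintype P] [DecidableEq P] {L : Type} [AddCommGroup L] [Module.Free ℤ L]
  [Module.Finite ℤ L]

/-- The product of the big factors has no small factor. -/
theorem ns_prod (hFD : FDS) (hSm : SmallS) (hG0 : G0S) (hU : UnitAS) (hMin : MinS)
    (hMm : MmulS) {phi : L →+ (P → ℤ)} {E : AO ℤ L} {S : L} {i0 : P}
    {h : co phi i0 S = 1} {eta : (RO ℤ)ˣ} {c : RO ℤ} {n0 : ℕ}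
    {G : Fin n0 → AO ℤ (Ker (co phi i0))} (hcc : CC phi E S i0 eta)
    (hZ : Zfd phi E S i0 h eta c n0 G) (b : Ker (co phi i0)) (e : (RO ℤ)ˣ)
    (hb : b ≠ 0) : ¬ (1 - AddMonoidAlgebra.single b (e : RO ℤ)) ∣ ∏ i, G i := by
  classical
  intro hd
  have : UniqueFactorizationMonoid (AO ℤ (Ker (co phi i0))) :=
    H25.Bch.ufdL ℤ (Ker (co phi i0))
  obtain ⟨c', n', G', fd⟩ := hFD ℤ P L phi E S i0 eta h hcc
  obtain ⟨lam, hlam, hlb⟩ := Uf.exists_lam hG0 (h := h) hcc b hb
  set x : AO ℤ (Ker (co phi i0)) := 1 - AddMonoidAlgebra.single b (e : RO ℤ) with hx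
  have hx0 : x ≠ 0 := by
    intro h0
    have h1 : x.coeff 0 = 1 := by
      rw [hx, Uf.bin_coeff, if_pos rfl, if_neg (Ne.symm hb), sub_zero]
    rw [h0] at h1
    exact zero_ne_one h1
  have hxu : ¬ IsUnit x := by
    intro hu
    obtain ⟨a, d, -, hxa⟩ := (hU ℤ _ x).1 hu
    have h1 : x.coeff 0 = 1 := by
      rw [hx, Uf.bin_coeff, if_pos rfl, if_neg (Ne.symm hb), sub_zero]
    have h2 : x.coeff b = -(e : RO ℤ) := by
      rw [hx, Uf.bin_coeff, if_neg hb, if_pos rfl, zero_sub]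
    rw [hxa, AddMonoidAlgebra.coeff_single, Finsupp.single_apply] at h1 h2
    by_cases h3 : a = 0
    · rw [if_neg (by rw [h3]; exact Ne.symm hb)] at h2
      exact neg_ne_zero.2 e.ne_zero h2.symm
    · rw [if_neg h3] at h1
      exact zero_ne_one h1
  obtain ⟨y, hyi, hyx⟩ := WfDvdMonoid.exists_irreducible_factor hxu hx0
  have hyp : Prime y := UniqueFactorizationMonoid.irreducible_iff_prime.1 hyi
  have hyP := hyx.trans hd
  obtain ⟨i, -, hi⟩ := (hyp.dvd_finsetProd_iff _).1 hyP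
  have hai : Associated y (G i) := hyi.associated_of_dvd (hZ.irr i) hi
  -- a factor of `G'`
  obtain ⟨j, hj⟩ : ∃ j, y ∣ G' j := by
    have h1 : y ∣ cst c' * ∏ i, G' i := by
      rw [← fd.eq, hZ.eq]
      exact hyP.mul_left _
    rcases hyp.dvd_or_dvd h1 with h2 | h2
    · exact absurd (hai.symm.dvd.trans h2) (not_dvd_cst hMin (hZ.wd i) fd.c0)
    · obtain ⟨i, -, hi⟩ := (hyp.dvd_finsetProd_iff _).1 h2
      exact ⟨i, hi⟩
  have haj : Associated y (G' j) := hyi.associated_of_dvd (fd.irr j) hj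
  by_cases hbig : 1 < M ((G' j).coeff 0)
  · obtain ⟨H, hH⟩ : G' j ∣ x := (haj.symm.dvd).trans hyx
    have hfull := fd.full j lam hlam
    have hnu : ¬ IsUnit ((G' j).coeff 0) := by
      intro hu
      rw [(hMm ℤ).2.2 _ hu] at hbig
      exact lt_irrefl _ hbig
    rcases lt_or_gt_of_ne hlb with hneg | hpos
    · apply hnu
      have h1 : 0 < lam (-b) := by
        rw [map_neg]
        omega
      refine Uf.low_unit hMin hfull.2.1 hfull.1 h1 (H := -(AddMonoidAlgebra.single (-b)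
        ((e⁻¹ : (RO ℤ)ˣ) : RO ℤ)) * H) (e := ((e⁻¹ : (RO ℤ)ˣ) : RO ℤ)) ?_
      have h2 : -(AddMonoidAlgebra.single (-b) ((e⁻¹ : (RO ℤ)ˣ) : RO ℤ)) * H * G' j =
          -(AddMonoidAlgebra.single (-b) ((e⁻¹ : (RO ℤ)ˣ) : RO ℤ)) * x := by
        rw [hH]
        ring
      have h3 : (AddMonoidAlgebra.single (-b) ((e⁻¹ : (RO ℤ)ˣ) : RO ℤ) : AO ℤ (Ker (co phi i0))) *
          AddMonoidAlgebra.single b (e : RO ℤ) = 1 := by
        rw [AddMonoidAlgebra.single_mul_single, neg_add_cancel, Units.inv_mul,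
          ← AddMonoidAlgebra.one_def]
      rw [h2, hx]
      linear_combination h3
    · apply hnu
      refine Uf.low_unit hMin hfull.2.1 hfull.1 hpos (H := H) (e := (e : RO ℤ)) ?_
      rw [← hx, hH]
      ring
  · obtain ⟨hu0, ⟨b', hb', -, e', he'⟩, -⟩ :=
      hSm ℤ P L phi E S i0 eta h c' n' G' fd j hbig
    obtain ⟨u, hu⟩ := haj.symm.trans hai
    obtain ⟨a, v, hv, hua⟩ := (hU ℤ _ (u : AO ℤ (Ker (co phi i0)))).1 u.isUnit
    have h1 := hZ.big i
    rw [← hu, mul_comm, hua, he'] at h1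
    exact Uf.M_bin hMm hb' hv hu0 e'⁻¹.isUnit h1

end

/-- Row O43_END for a closing with big factors (`Zfd`) and an identity. -/
theorem end_zfd (hEnd : EndS) (hFD : FDS) (hSm : SmallS) (hG0 : G0S) (hU : UnitAS) (hMin : MinS)
    (hMm : MmulS) (P L : Type) [Fintype P] [DecidableEq P] [AddCommGroup L]
    [Module.Free ℤ L] [Module.Finite ℤ L] (phi : L →+ (P → ℤ)) (E : AO ℤ L) (S : L) (i0 : P)
    (h : co phi i0 S = 1) (eta : (RO ℤ)ˣ) (c : RO ℤ) (n0 : ℕ)
    (G : Fin n0 → AO ℤ (Ker (co phi i0))) (p0 p1 : ℤ[X])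
    (u0 : (RO ℤ)ˣ) (T : Ker (co phi i0)) (mu : Ker (co phi i0) →+ ℤ) (hD : DD phi E)
    (h2 : 2 ≤ Module.finrank ℤ L) (hR : Ray E S) (hZ : Zfd phi E S i0 h eta c n0 G)
    (h0 : (u0 : RO ℤ) * E.coeff 0 = toLaurent p0)
    (h1 : (u0 : RO ℤ) * ((eta : RO ℤ) * E.coeff S) = -toLaurent p1)
    (hp0 : ∀ z : ℂ, ‖z‖ < 1 → aeval z p0 ≠ 0) (hne : p0 ≠ p1) (hT : mu T = 1)
    (hmu : ∀ a ∈ supp (cl (co phi i0) S h eta E), mu a = 0 ∨ mu a = 1) (e : (RO ℤ)ˣ)
    (F H : AO ℤ (Ker (co phi i0)))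
    (hid : res (Ker (co phi i0)) E = (1 - AddMonoidAlgebra.single T (e : RO ℤ)) * F + cst c * H) :
    IsUnit c := by
  have hV0 : (u0 : RO ℤ) * (E.coeff 0 + (eta : RO ℤ) * E.coeff S) = toLaurent (p0 - p1) := by
    rw [mul_add, h0, h1, map_sub]
    ring
  have hne0 : E.coeff 0 + (eta : RO ℤ) * E.coeff S ≠ 0 := by
    intro h3
    rw [h3, mul_zero] at hV0
    exact hne (sub_eq_zero.1 (Dcm.toLaurent_inj' (by rw [← hV0, map_zero])))
  have hCC : CC phi E S i0 eta := ⟨hD, h2, hR, h, hne0⟩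
  have hc0 : c ≠ 0 := by
    rintro rfl
    obtain ⟨-, -, hcl0, -⟩ := hG0 ℤ P L phi E S i0 eta h hCC
    apply hne0
    rw [← hcl0, hZ.eq, H14.coeff_cst_mul, zero_mul]
  refine hEnd P L phi E S i0 h eta c (∏ i, G i) p0 p1 u0 T mu hD h2 hR hZ.eq hZ.cc hZ.zf
    (fun b e hb => ns_prod hFD hSm hG0 hU hMin hMm hCC hZ b e hb) h0 h1 hp0 hne hT ?_
    (fun z0 hz => spec_id hid z0 hz)
  intro a ha
  apply hmu a
  change (cl (co phi i0) S h eta E).coeff a ≠ 0
  rw [hZ.eq, H14.coeff_cst_mul]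
  exact mul_ne_zero hc0 ha

end KO23

end Pool.Agent.B5
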