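import Pool.Agent.Lib.MP_b5021c_nt.IfaceOF
import Pool.Agent.Lib.MP_b5021c_nt.KO.H39.S5a1
import Pool.Agent.Lib.MP_b5021c_nt.B.H78.Den

/-!
# MP_b5021c_nt, all `θ`, K ODD, cycles of length at least five: the end of the small factors of the
closing `y_0 = -1/z`, `y_2 = ε` (row OC_S5A)
-/

set_option linter.unusedSectionVars false

namespace Pool.Agent.B5.OC23

open scoped LaurentPolynomial
open Polynomial
open Pool.Agent.B5
open Pool.Agent.B5.OC
open Pool.Agent.B5.KE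
open Pool.Agent.B5.KO.H39

section

variable {P : Type} [Fintype P] [DecidableEq P] {L : Type} [AddCommGroup L] [Module.Free ℤ L]
  [Module.Finite ℤ L] {phi : L →+ (P → ℤ)} {D : AO ℤ L} {q f E : ℤ[X]} {a : ℝ} {j : ℕ}
  {eta : L → (RO ℤ)ˣ} {C : Set L} {k : ℕ} {Z : ZMod (k + 3) → L} {mu : ZMod (k + 3) → L →+ ℤ}
  {psi : RO ℤ}

theorem zm_ne {k : ℕ} (m : ℕ) (h1 : 1 ≤ m) (h2 : m < k + 3) : ((m : ℕ) : ZMod (k + 3)) ≠ 0 := by
  intro h
  rw [ZMod.natCast_eq_zero_iff] at h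
  have := Nat.le_of_dvd (by omega) h
  omega

theorem sum_fin4 (F : Finset (Fin 4) → ℂ) : ∑ I : Finset (Fin 4), F I =
    F ∅ + F {0} + F {1} + F {2} + F {3} + F {0, 1} + F {1, 2} + F {2, 3} + F {0, 2} + F {1, 3} +
      F {0, 3} + F {0, 1, 2} + F {1, 2, 3} + F {0, 1, 3} + F {0, 2, 3} + F {0, 1, 2, 3} := by
  have h : (Finset.univ : Finset (Finset (Fin 4))) = {∅, {0}, {1}, {2}, {3}, {0, 1}, {1, 2},
      {2, 3}, {0, 2}, {1, 3}, {0, 3}, {0, 1, 2}, {1, 2, 3}, {0, 1, 3}, {0, 2, 3}, {0, 1, 2, 3}} := by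
    decide
  rw [h]
  rw [Finset.sum_insert (by decide), Finset.sum_insert (by decide), Finset.sum_insert (by decide),
    Finset.sum_insert (by decide), Finset.sum_insert (by decide), Finset.sum_insert (by decide),
    Finset.sum_insert (by decide), Finset.sum_insert (by decide), Finset.sum_insert (by decide),
    Finset.sum_insert (by decide), Finset.sum_insert (by decide), Finset.sum_insert (by decide),
    Finset.sum_insert (by decide), Finset.sum_insert (by decide), Finset.sum_insert (by decide),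
    Finset.sum_singleton]
  ring

/-- The element at four consecutive rays is zero free. -/
theorem cyc4 (hF : FcmS) (H : Oc phi D q f E a j eta C k Z mu) (hk : 2 ≤ k)
    (hA : ∀ i, Ar4 D eta Z (toLaurent (X * f)) psi i) (z : Circle) {y0 y1 y2 y3 : ℂ}
    (h0 : ‖y0‖ < 1) (h1 : ‖y1‖ < 1) (h2 : ‖y2‖ < 1) (h3 : ‖y3‖ < 1) {Q A B : ℂ}
    (hQ : evR z (D.coeff 0) = Q) (hAA : evR z (toLaurent (X * f)) = A) (hB : evR z psi = B) :
    Q + A * (y0 + y1 + y2 + y3) - A * (y0 * y1 + y1 * y2 + y2 * y3) +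
      B * (y0 * y2 + y1 * y3 + y0 * y3) + A * (y0 * y1 * y2 + y1 * y2 * y3) -
      B * (y0 * y1 * y3 + y0 * y2 * y3) - A * (y0 * y1 * y2 * y3) ≠ 0 := by
  have hD := H.kb.ko.min.fp.dd
  have hr2 : 2 ≤ Module.finrank ℤ L := by
    have := H.kb.ko.rk
    have := H.kb.ko.j2
    omega
  have e01 : (0 : ZMod (k + 3)) ≠ 1 := by
    have := zm_ne (k := k) 1 le_rfl (by linarith)
    intro h
    apply this
    rw [Nat.cast_one]
    exact h.symm
  have e02 : (0 : ZMod (k + 3)) ≠ 2 := by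
    have := zm_ne (k := k) 2 (by omega) (by omega)
    intro h
    apply this
    rw [Nat.cast_ofNat]
    exact h.symm
  have e03 : (0 : ZMod (k + 3)) ≠ 3 := by
    have := zm_ne (k := k) 3 (by omega) (by omega)
    intro h
    apply this
    rw [Nat.cast_ofNat]
    exact h.symm
  have e12 : (1 : ZMod (k + 3)) ≠ 2 := by
    intro h
    apply e01
    linear_combination h
  have e13 : (1 : ZMod (k + 3)) ≠ 3 := by
    intro h
    apply e02
    linear_combination h
  have e23 : (2 : ZMod (k + 3)) ≠ 3 := by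
    intro h
    apply e01
    linear_combination h
  have rays : ∀ i, Ray D (Z i) := fun i => H.kb.kc.ray _ (H.mem i)
  have key := hF ℤ P L phi D 4 ![Z 0, Z 1, Z 2, Z 3] hD hr2
    (by
      intro i
      fin_cases i
      · exact hD.bin _ (rays 0).1
      · exact hD.bin _ (rays 1).1
      · exact hD.bin _ (rays 2).1
      · exact hD.bin _ (rays 3).1)
    (by
      intro i
      fin_cases i
      · exact (rays 0).2.1
      · exact (rays 1).2.1
      · exact (rays 2).2.1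
      · exact (rays 3).2.1)
    (by
      intro i j hij
      fin_cases i <;> fin_cases j
      · exact absurd rfl hij
      · exact H.cyc.dis _ _ e01
      · exact H.cyc.dis _ _ e02
      · exact H.cyc.dis _ _ e03
      · exact H.cyc.dis _ _ e01.symm
      · exact absurd rfl hij
      · exact H.cyc.dis _ _ e12
      · exact H.cyc.dis _ _ e13
      · exact H.cyc.dis _ _ e02.symm
      · exact H.cyc.dis _ _ e12.symm
      · exact absurd rfl hij
      · exact H.cyc.dis _ _ e23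
      · exact H.cyc.dis _ _ e03.symm
      · exact H.cyc.dis _ _ e13.symm
      · exact H.cyc.dis _ _ e23.symm
      · exact absurd rfl hij)
    z ![evR z (eta (Z 0) : RO ℤ) * y0, evR z (eta (Z 1) : RO ℤ) * y1,
      evR z (eta (Z 2) : RO ℤ) * y2, evR z (eta (Z 3) : RO ℤ) * y3]
    (by
      have hu : ∀ i, ‖evR z (eta (Z i) : RO ℤ)‖ = 1 := fun i =>
        C4C.norm_evR_unit z (eta (Z i)).isUnit
      intro i
      fin_cases i
      · simpa [hu] using h0
      · simpa [hu] using h1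
      · simpa [hu] using h2
      · simpa [hu] using h3)
  rw [sum_fin4] at key
  have a4 := hA 0
  have a3 := a4.a0
  have b3 := a4.a1
  have z1 : (0 : ZMod (k + 3)) + 1 = 1 := zero_add _
  have z2 : (0 : ZMod (k + 3)) + 2 = 2 := zero_add _
  have z3 : (0 : ZMod (k + 3)) + 3 = 3 := zero_add _
  have z11 : (1 : ZMod (k + 3)) + 1 = 2 := by norm_num
  have z12 : (1 : ZMod (k + 3)) + 2 = 3 := by norm_num
  have s01 := a3.s01
  have s12 := a3.s12
  have s02 := a3.s02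
  have s012 := a3.s012
  have s23 := b3.s12
  have s13 := b3.s02
  have s123 := b3.s012
  have s03 := a4.s03
  have s013 := a4.s013
  have s023 := a4.s023
  have s0123 := a4.s0123
  simp only [z1, z2, z3, z11, z12] at s01 s12 s02 s012 s23 s13 s123 s03 s013 s023 s0123
  have c0 := H.co 0
  have c1 := H.co 1
  have c2 := H.co 2
  have c3 := H.co 3
  have ev := fun (p r : RO ℤ) (h : p = r) => congrArg (evR z) h
  replace s01 := ev _ _ s01
  replace s12 := ev _ _ s12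
  replace s02 := ev _ _ s02
  replace s012 := ev _ _ s012
  replace s23 := ev _ _ s23
  replace s13 := ev _ _ s13
  replace s123 := ev _ _ s123
  replace s03 := ev _ _ s03
  replace s013 := ev _ _ s013
  replace s023 := ev _ _ s023
  replace s0123 := ev _ _ s0123
  replace c0 := ev _ _ c0
  replace c1 := ev _ _ c1
  replace c2 := ev _ _ c2
  replace c3 := ev _ _ c3
  simp only [map_mul (evR z), map_neg, hAA, hB] at s01 s12 s02 s012 s23 s13 s123 s03 s013 s023 s0123 c0 c1 c2 c3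
  intro hz
  apply key
  have sm2 : ∀ i j : Fin 4, i ≠ j → ∀ v : Fin 4 → L, ∑ l ∈ ({i, j} : Finset (Fin 4)), v l =
      v i + v j := fun i j hij v => Finset.sum_pair hij
  have sm3 : ∀ i j l : Fin 4, i ≠ j → i ≠ l → j ≠ l → ∀ v : Fin 4 → L,
      ∑ m ∈ ({i, j, l} : Finset (Fin 4)), v m = v i + v j + v l := by
    intro i j l h1 h2 h3 v
    rw [Finset.sum_insert (by simp [h1, h2]), Finset.sum_pair h3]
    abel
  have sm4 : ∀ v : Fin 4 → L, ∑ m ∈ ({0, 1, 2, 3} : Finset (Fin 4)), v m =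
      v 0 + v 1 + v 2 + v 3 := by
    intro v
    rw [Finset.sum_insert (by decide), Finset.sum_insert (by decide), Finset.sum_pair (by decide)]
    abel
  have pm2 : ∀ i j : Fin 4, i ≠ j → ∀ v : Fin 4 → ℂ, ∏ l ∈ ({i, j} : Finset (Fin 4)), v l =
      v i * v j := fun i j hij v => Finset.prod_pair hij
  have pm3 : ∀ i j l : Fin 4, i ≠ j → i ≠ l → j ≠ l → ∀ v : Fin 4 → ℂ,
      ∏ m ∈ ({i, j, l} : Finset (Fin 4)), v m = v i * v j * v l := by
    intro i j l h1 h2 h3 v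
    rw [Finset.prod_insert (by simp [h1, h2]), Finset.prod_pair h3]
    ring
  have pm4 : ∀ v : Fin 4 → ℂ, ∏ m ∈ ({0, 1, 2, 3} : Finset (Fin 4)), v m =
      v 0 * v 1 * v 2 * v 3 := by
    intro v
    rw [Finset.prod_insert (by decide), Finset.prod_insert (by decide), Finset.prod_pair (by decide)]
    ring
  rw [Finset.sum_empty, Finset.prod_empty, Finset.sum_singleton, Finset.prod_singleton,
    Finset.sum_singleton, Finset.prod_singleton, Finset.sum_singleton, Finset.prod_singleton,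
    Finset.sum_singleton, Finset.prod_singleton, sm2 0 1 (by decide), pm2 0 1 (by decide),
    sm2 1 2 (by decide), pm2 1 2 (by decide), sm2 2 3 (by decide), pm2 2 3 (by decide),
    sm2 0 2 (by decide), pm2 0 2 (by decide), sm2 1 3 (by decide), pm2 1 3 (by decide),
    sm2 0 3 (by decide), pm2 0 3 (by decide),
    sm3 0 1 2 (by decide) (by decide) (by decide), pm3 0 1 2 (by decide) (by decide) (by decide),
    sm3 1 2 3 (by decide) (by decide) (by decide), pm3 1 2 3 (by decide) (by decide) (by decide),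
    sm3 0 1 3 (by decide) (by decide) (by decide), pm3 0 1 3 (by decide) (by decide) (by decide),
    sm3 0 2 3 (by decide) (by decide) (by decide), pm3 0 2 3 (by decide) (by decide) (by decide),
    sm4, pm4]
  have w0 : (![Z 0, Z 1, Z 2, Z 3] : Fin 4 → L) 0 = Z 0 := rfl
  have w1 : (![Z 0, Z 1, Z 2, Z 3] : Fin 4 → L) 1 = Z 1 := rfl
  have w2 : (![Z 0, Z 1, Z 2, Z 3] : Fin 4 → L) 2 = Z 2 := rfl
  have w3 : (![Z 0, Z 1, Z 2, Z 3] : Fin 4 → L) 3 = Z 3 := rfl
  rw [w0, w1, w2, w3]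
  set x0 := evR z (eta (Z 0) : RO ℤ) with hx0
  set x1 := evR z (eta (Z 1) : RO ℤ) with hx1
  set x2 := evR z (eta (Z 2) : RO ℤ) with hx2
  set x3 := evR z (eta (Z 3) : RO ℤ) with hx3
  have v0 : (![x0 * y0, x1 * y1, x2 * y2, x3 * y3] : Fin 4 → ℂ) 0 = x0 * y0 := rfl
  have v1 : (![x0 * y0, x1 * y1, x2 * y2, x3 * y3] : Fin 4 → ℂ) 1 = x1 * y1 := rfl
  have v2 : (![x0 * y0, x1 * y1, x2 * y2, x3 * y3] : Fin 4 → ℂ) 2 = x2 * y2 := rfl
  have v3 : (![x0 * y0, x1 * y1, x2 * y2, x3 * y3] : Fin 4 → ℂ) 3 = x3 * y3 := rfl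
  rw [v0, v1, v2, v3, hQ]
  linear_combination hz + y0 * c0 + y1 * c1 + y2 * c2 + y3 * c3 + y0 * y1 * s01 + y1 * y2 * s12 +
    y2 * y3 * s23 + y0 * y2 * s02 + y1 * y3 * s13 + y0 * y3 * s03 + y0 * y1 * y2 * s012 +
    y1 * y2 * y3 * s123 + y0 * y1 * y3 * s013 + y0 * y2 * y3 * s023 + y0 * y1 * y2 * y3 * s0123

/-- `P(1) = 0` implies `Q(1) = 0` if `P(r) + y Q(r)` is zero free for `r < 1`, `|y| < 1`. -/
theorem lim_zero {Pf Qf : ℝ → ℂ} (hP : Continuous Pf) (hQ : Continuous Qf)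
    (h : ∀ r : ℝ, 0 ≤ r → r < 1 → ∀ y : ℂ, ‖y‖ < 1 → Pf r + y * Qf r ≠ 0) (h1 : Pf 1 = 0) :
    Qf 1 = 0 := by
  have hle : ∀ r ∈ Set.Ico (0 : ℝ) 1, ‖Qf r‖ ≤ ‖Pf r‖ := by
    intro r hr
    by_contra hcon
    push Not at hcon
    have hq : Qf r ≠ 0 := by
      intro h2
      rw [h2, norm_zero] at hcon
      exact absurd (norm_nonneg (Pf r)) (not_le.mpr hcon)
    refine h r hr.1 hr.2 (-(Pf r) / Qf r) ?_ ?_
    · rw [norm_div, norm_neg, div_lt_one (norm_pos_iff.mpr hq)]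
      exact hcon
    · field_simp
      ring
  have hcl : IsClosed {r : ℝ | ‖Qf r‖ ≤ ‖Pf r‖} := isClosed_le hQ.norm hP.norm
  have hsub : closure (Set.Ico (0 : ℝ) 1) ⊆ {r : ℝ | ‖Qf r‖ ≤ ‖Pf r‖} :=
    closure_minimal hle hcl
  rw [closure_Ico zero_ne_one] at hsub
  have h2 : ‖Qf 1‖ ≤ ‖Pf 1‖ := hsub ⟨zero_le_one, le_rfl⟩
  rw [h1, norm_zero] at h2
  exact norm_le_zero_iff.mp h2

/-- The class of `Z 1` in the closing `y_0 = -1/z`, `y_2 = y_3 = ε` vanishes if its constant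
coefficient vanishes. -/
theorem z1_class (hF : FcmS) (H : Oc phi D q f E a j eta C k Z mu) (hk : 2 ≤ k)
    (hA : ∀ i, Ar4 D eta Z (toLaurent (X * f)) psi i) {γ : ℤ[X]} {s n : ℤ}
    (hs : s = 1 ∨ s = -1)
    (hγ : eps s n * (LaurentPolynomial.T 1 * toLaurent f - LaurentPolynomial.T (-1) * psi) =
      LaurentPolynomial.T 1 * toLaurent γ)
    (hE : (toLaurent E : RO ℤ) = (2 - eps s n) * toLaurent γ) :
    LaurentPolynomial.T 1 * toLaurent f * (1 - eps s n + eps s n ^ 2) + psi * eps s n = 0 := by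
  obtain ⟨m1, hm1⟩ := circle_of (-1) (by simp)
  refine H78.eq_zero_of_evR _ {m1} (Set.finite_singleton _) ?_
  intro z hz
  have hzm : (z : ℂ) ≠ -1 := by
    intro h
    apply hz
    rw [Set.mem_singleton_iff]
    apply Circle.coe_injective
    rw [h, hm1]
  have hz0 : (z : ℂ) ≠ 0 := Circle.coe_ne_zero z
  have hz1 : ‖(z : ℂ)‖ = 1 := Circle.norm_coe z
  obtain ⟨b, hb⟩ : ∃ b, b = evR z (eps s n) := ⟨_, rfl⟩
  have hb1 : ‖b‖ = 1 := by
    rw [hb, ← epsU_val hs n]
    exact C4C.norm_evR_unit z (epsU hs n).isUnit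
  obtain ⟨B, hB⟩ : ∃ B, B = evR z psi := ⟨_, rfl⟩
  obtain ⟨A, hAA⟩ : ∃ A, A = evR z (toLaurent (X * f)) := ⟨_, rfl⟩
  obtain ⟨Q, hQ⟩ : ∃ Q, Q = evR z (D.coeff 0) := ⟨_, rfl⟩
  have eT1 : evR z (LaurentPolynomial.T 1 : RO ℤ) = (z : ℂ) := by
    rw [KO67.evT67, zpow_one]
  have eTm : evR z (LaurentPolynomial.T (-1) : RO ℤ) = (z : ℂ)⁻¹ := by
    rw [KO67.evT67, zpow_neg, zpow_one]
  have hA' : A = z * aeval (z : ℂ) f := by
    rw [hAA, KO58.evR_pl, map_mul, aeval_X]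
  have hQ' : Q = aeval (z : ℂ) f - z * aeval (z : ℂ) E := by
    rw [hQ, H.kb.ko.D0, KO58.evR_pl]
    have h1 := congrArg (fun p : ℤ[X] => (aeval (z : ℂ) p : ℂ)) H.eE
    simp only [map_sub, map_mul, aeval_X] at h1
    linear_combination -h1
  have hγ' : b * (z * aeval (z : ℂ) f - (z : ℂ)⁻¹ * B) = z * aeval (z : ℂ) γ := by
    have h1 := congrArg (evR z) hγ
    simp only [map_mul, map_sub, eT1, eTm, ← hb, ← hB, KO58.evR_pl] at h1
    exact h1
  have hE' : (aeval (z : ℂ) E : ℂ) = (2 - b) * aeval (z : ℂ) γ := by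
    have h1 := congrArg (evR z) hE
    simp only [map_mul, map_sub, ← hb, KO58.evR_pl, map_ofNat] at h1
    exact h1
  have hb0 : ‖-(z : ℂ)⁻¹‖ = 1 := by rw [norm_neg, norm_inv, hz1, inv_one]
  obtain ⟨b0, hb0'⟩ : ∃ b0, b0 = -(z : ℂ)⁻¹ := ⟨_, rfl⟩
  rw [← hb0'] at hb0
  have hsm : ∀ (r : ℝ) (c : ℂ), 0 ≤ r → r < 1 → ‖c‖ = 1 → ‖(r : ℂ) * c‖ < 1 := by
    intro r c hr0 hr1 hc
    rw [norm_mul, hc, mul_one, Complex.norm_real, Real.norm_eq_abs, abs_of_nonneg hr0]
    exact hr1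
  have hlim := lim_zero
    (Pf := fun r : ℝ => Q + A * (r * b0 + r * b + r * b) - A * (r * b * (r * b)) +
      B * (r * b0 * (r * b) + r * b0 * (r * b)) - B * (r * b0 * (r * b) * (r * b)))
    (Qf := fun r : ℝ => (1 - r * b0) * (A - A * (r * b) + B * (r * b) + A * (r * b * (r * b))))
    (by fun_prop) (by fun_prop) (by
      intro r hr0 hr1 y hy
      have h1 := cyc4 hF H hk hA z (hsm r b0 hr0 hr1 hb0) hy (hsm r b hr0 hr1 hb1)
        (hsm r b hr0 hr1 hb1) hQ.symm hAA.symm hB.symm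
      intro h2
      apply h1
      rw [← h2]
      ring) (by
      simp only [Complex.ofReal_one, one_mul]
      rw [hQ', hA', hb0']
      have e1 : (z : ℂ) * (z : ℂ)⁻¹ = 1 := mul_inv_cancel₀ hz0
      linear_combination (2 - b) * hγ' - z * hE' - aeval (z : ℂ) f * e1)
  simp only [Complex.ofReal_one, one_mul] at hlim
  have h1 : (1 - b0) ≠ 0 := by
    intro h
    apply hzm
    rw [hb0'] at h
    have e1 : (z : ℂ) * (z : ℂ)⁻¹ = 1 := mul_inv_cancel₀ hz0
    linear_combination (z : ℂ) * h - e1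
  have h2 := (mul_eq_zero.mp hlim).resolve_left h1
  rw [map_add, map_mul, map_mul, map_mul, map_add, map_sub, map_pow, map_one, ← hb, ← hB, eT1,
    KO58.evR_pl]
  rw [hA'] at h2
  linear_combination h2

/-- The coefficient of `Z 2` in `G`. -/
theorem g2_coeff (H : Oc phi D q f E a j eta C k Z mu)
    (hA : ∀ i, Ar4 D eta Z (toLaurent (X * f)) psi i) (Y : Dp phi (Z 0) (Z 2)) :
    (eta (Z 2) : RO ℤ) * (GG D eta Y).coeff Y.T =
      LaurentPolynomial.T 1 * toLaurent f - LaurentPolynomial.T (-1) * psi := by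
  have hD := H.kb.ko.min.fp.dd
  have h1 := H47.cl_coeff_bin (co phi Y.i0) (Z 0) Y.h0 (eta (Z 0) * tA) D
    (fun b hb => hD.bin b hb Y.i0) Y.T
  have h2 : (GG D eta Y).coeff Y.T = D.coeff (Z 2) +
      ((eta (Z 0) * tA : (RO ℤ)ˣ) : RO ℤ) * D.coeff (Z 0 + Z 2) := by
    rw [h1, Y.eT, add_comm (Z 0) (Z 2)]
  have s02 := (hA 0).a0.s02
  have z2 : (0 : ZMod (k + 3)) + 2 = 2 := zero_add _
  rw [z2] at s02
  have c2 := H.co 2
  rw [map_mul, toLaurent_X] at c2
  rw [h2, Units.val_mul, KV.H03.tA_val]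
  linear_combination c2 - LaurentPolynomial.T (-1) * s02

/-- NO SMALL FACTOR of the closing `y_2 = ε` of `G`. -/
theorem nsm (hT : TsgS) (hF : FcmS) (hMfc : MfcS) (hNr : Nr3S) : NsmS := by
  intro P L _ _ _ _ _ phi D q f E γ a j eta C k Z mu psi s n hs Y H hk hA hsn hγ0 hγ Gd nod hne h
    c m G fd hMc hsn2
  have hD := Gd.dd
  have hr2 : 2 ≤ Module.finrank ℤ (Ker (co phi Y.i0)) := by
    have := Gd.rkG
    have := H.kb.ko.j2
    omega
  have hg2 := g2_coeff H hA Y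
  have hinv := eps_inv hs n
  have hg2' : (eta (Z 2) : RO ℤ) * (GG D eta Y).coeff Y.T =
      eps s (-n) * (LaurentPolynomial.T 1 * toLaurent γ) := by
    rw [hg2, ← hγ]
    linear_combination -(LaurentPolynomial.T 1 * toLaurent f - LaurentPolynomial.T (-1) * psi) *
      hinv
  have hsum : (GG D eta Y).coeff 0 + ((eta (Z 2) * epsU hs n : (RO ℤ)ˣ) : RO ℤ) *
      (GG D eta Y).coeff Y.T = -(LaurentPolynomial.T 1 * (toLaurent E - toLaurent γ)) := by
    rw [Gd.c0, Units.val_mul, epsU_val, map_mul, toLaurent_X]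
    linear_combination eps s n * hg2' + LaurentPolynomial.T 1 * toLaurent γ * hinv
  have hsumT : (GG D eta Y).coeff 0 + ((eta (Z 2) * epsU hs n : (RO ℤ)ˣ) : RO ℤ) *
      (GG D eta Y).coeff Y.T = LaurentPolynomial.T 1 * toLaurent (γ - E) := by
    rw [hsum, map_sub]
    ring
  have hne1 : eta (Z 2) * epsU hs n ≠ eta (Z 2) := by
    intro h1
    have h2 : epsU hs n = 1 := mul_eq_left.mp h1
    apply eps_ne_one hsn
    rw [← epsU_val hs n, h2, Units.val_one]
  obtain ⟨t, ht0, htn, hte⟩ := hT P (Ker (co phi Y.i0)) (phO phi (Z 0) Y.i0) (GG D eta Y) Y.T Y.i1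
    (eta (Z 2) * epsU hs n) (eta (Z 2)) h c m G 1 (γ - E) fd hMc hsn2 (Gd.fr _ hne1 h) hne1.symm
    (Gd.dr h) hsumT (by
      intro z0 hz0 hd
      apply nod z0 hz0
      obtain ⟨d, hd⟩ := hd
      refine ⟨-d, ?_⟩
      rw [mul_neg, ← hd, ← neg_sub γ E, Polynomial.map_neg])
  -- the relation of `t`
  have hload : ((eta (Z 2) : (RO ℤ)ˣ) : RO ℤ) *
      (((eta (Z 2) * epsU hs n)⁻¹ : (RO ℤ)ˣ) : RO ℤ) = eps s (-n) := by
    rw [mul_inv, Units.val_mul, ← mul_assoc, Units.mul_inv, one_mul, epsU_inv]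
  have hT2 : toLaurent E - eps s (-n) * toLaurent γ =
      (1 - eps s (-n)) * (t * (toLaurent E - toLaurent γ)) := by
    rw [hload, hsum, Gd.c0, map_mul, toLaurent_X, hg2'] at hte
    have hTT : (LaurentPolynomial.T (-1) * LaurentPolynomial.T 1 : RO ℤ) = 1 := KV67.TT1
    linear_combination (-LaurentPolynomial.T (-1) : RO ℤ) * hte +
      ((1 - eps s (-n)) * (t * (toLaurent E - toLaurent γ)) -
        (toLaurent E - eps s (-n) * toLaurent γ)) * hTT
  -- the face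
  obtain ⟨x3, hx3⟩ : ∃ x : Ker (co phi Y.i0), (x : L) = Z 3 := by
    have e03 : (3 : ZMod (k + 3)) ≠ 0 := by
      have := zm_ne (k := k) 3 (by omega) (by omega)
      intro h
      apply this
      rw [Nat.cast_ofNat]
      exact h
    have h1 : phi (Z 3) Y.i0 = 0 := by
      rcases H.cyc.dis 3 0 e03 Y.i0 with h2 | h2
      · exact h2
      · have h3 : phi (Z 0) Y.i0 = 1 := Y.h0
        rw [h2] at h3
        exact absurd h3 zero_ne_one
    exact ⟨⟨Z 3, h1⟩, rfl⟩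
  have hmt := Gd.mt x3 hx3
  have hone : t = 1 := by
    refine tau_one hNr hs hsn hne ht0 htn hT2 ?_
    intro z hz x y hx hy h0
    apply hMfc ℤ P (Ker (co phi Y.i0)) (phO phi (Z 0) Y.i0) (GG D eta Y) Y.T x3 (eta (Z 2))
      (eta (Z 3)) hD hr2 hmt z x y hx hy
    rw [Gd.c0, hg2', map_neg, KO58.evR_pl, map_mul (evR z), map_mul (evR z), hz, KO58.evR_pl,
      KO67.evT67, zpow_one, map_mul, aeval_X]
    linear_combination (-(z : ℂ)) * h0
  rw [hone] at hT2
  have hE := E_of_tau hs hT2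
  exact z1_no hs hsn H.f0 (by omega) hE hγ (z1_class hF H hk hA hs hγ hE)

end

end Pool.Agent.B5.OC23
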